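import Pool.Agent.Helper49.RU.St

/-!
# Project RU, module NAT: transport to the natural numbers
-/

set_option autoImplicit false

namespace Pool.Agent.Helper32.RU

open Pool.Agent.Helper49.RU
open MeasureTheory Filter Topology Complex
open scoped ENNReal Cardinal ComplexConjugate

private theorem pz_smul (z w : H) (c : ℂ) : pz z (c • w) = c • pz z w := by
  unfold pz
  rw [inner_smul_right, smul_smul]

theorem hNAT (hTWI : StTWI) (hULT : StULT) : StNAT := by
  intro hp
  obtain ⟨U, hU1, hU2, hU3⟩ := hULT hp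
  haveI : Infinite Idx := by
    refine Infinite.of_injective (fun k : ℕ => (⟨k, fun _ => 0⟩ : Idx)) fun a b h => ?_
    exact congrArg Sigma.fst h
  obtain ⟨e⟩ : Nonempty (ℕ ≃ Idx) := nonempty_equiv_of_countable
  refine ⟨U.map e.symm, ?_, fun n => zeta (e n), ?_, ?_, ?_⟩
  · intro n h
    rw [Ultrafilter.mem_map] at h
    have h1 : (e.symm ⁻¹' {n} : Set Idx) = {e n} := by
      ext i
      rw [Set.mem_preimage, Set.mem_singleton_iff, Set.mem_singleton_iff, Equiv.symm_apply_eq]
    rw [h1] at h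
    exact (Ultrafilter.compl_mem_iff_notMem.1 (hU1 (e n))) h
  · intro n
    unfold zeta
    rw [lp.norm_single (by norm_num)]
    exact hTWI.1 _ _
  · intro M
    rw [Ultrafilter.coe_map]
    refine tendsto_map' ?_
    have h1 : ((fun n => tst (⇑M) (zeta (e n))) ∘ e.symm) = fun i => tst (⇑M) (zeta i) := by
      funext i
      simp only [Function.comp, Equiv.apply_symm_apply]
    rw [h1]
    exact hU2 M
  · intro w C ε hw hε
    obtain ⟨D, hD⟩ : ∃ D : ℝ, D = max C 1 := ⟨_, rfl⟩
    have hD0 : 0 < D := by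
      rw [hD]
      exact lt_of_lt_of_le one_pos (le_max_right _ _)
    have hDC : C ≤ D := by
      rw [hD]
      exact le_max_left _ _
    have hDn : ‖((D : ℂ))‖ = D := by
      rw [Complex.norm_real, Real.norm_eq_abs, abs_of_pos hD0]
    have hDc : (D : ℂ) ≠ 0 := by
      exact_mod_cast hD0.ne'
    obtain ⟨T, hT⟩ := hU3 (fun i => ((D : ℂ))⁻¹ • w (e.symm i)) (ε / D) (fun i => by
      rw [norm_smul, norm_inv, hDn]
      calc D⁻¹ * ‖w (e.symm i)‖ ≤ D⁻¹ * D :=
            mul_le_mul_of_nonneg_left ((hw _).trans hDC) (by positivity)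
        _ = 1 := inv_mul_cancel₀ hD0.ne') (by positivity)
    refine ⟨T, ?_⟩
    rw [Ultrafilter.coe_map, eventually_map]
    filter_upwards [hT] with i hi
    rw [Equiv.apply_symm_apply]
    rw [map_smul, pz_smul, ← smul_sub, norm_smul, norm_inv, hDn] at hi
    rw [inv_mul_le_iff₀ hD0] at hi
    calc ‖T (w (e.symm i)) - pz (zeta i) (w (e.symm i))‖ ≤ D * (ε / D) := hi
      _ = ε := by field_simp

end Pool.Agent.Helper32.RU
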